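import Pool.Agent.R271.FBLSlice

/-!
# The free Banach lattice generated by `L₁[0,1]` has the Daugavet property
-/

open Filter Topology Finset MeasureTheory
open scoped ENNReal
open Pool.Agent.R271.FBL

namespace Pool.Agent.Results.MP_207313_an.FreeLatticeDaugavet

/-- Lebesgue measure on `[0,1]`. -/
noncomputable abbrev lam : Measure ℝ := volume.restrict (Set.Icc (0 : ℝ) 1)

/-- The space `L₁[0,1]`. -/
abbrev L1 : Type := Lp ℝ 1 lam

lemma norm_eq (x : L1) : ‖x‖ = ∫ t, |x t| ∂lam := L1.norm_eq_integral_norm x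

/-- Multiplication by an indicator function, as a function. -/
noncomputable def cutF {s : Set ℝ} (hs : MeasurableSet s) (x : L1) : L1 :=
  ((Lp.memLp x).indicator hs).toLp

lemma coeFn_cutF {s : Set ℝ} (hs : MeasurableSet s) (x : L1) :
    cutF hs x =ᵐ[lam] s.indicator x := MemLp.coeFn_toLp _

lemma norm_cutF {s : Set ℝ} (hs : MeasurableSet s) (x : L1) :
    ‖cutF hs x‖ = ∫ t in s, |x t| ∂lam := by
  rw [norm_eq, ← integral_indicator hs]
  refine integral_congr_ae ?_
  filter_upwards [coeFn_cutF hs x] with t ht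
  rw [ht]
  by_cases h : t ∈ s
  · rw [Set.indicator_of_mem h, Set.indicator_of_mem h]
  · rw [Set.indicator_of_notMem h, Set.indicator_of_notMem h, abs_zero]

lemma norm_cutF_le {s : Set ℝ} (hs : MeasurableSet s) (x : L1) : ‖cutF hs x‖ ≤ ‖x‖ := by
  rw [norm_cutF, norm_eq]
  exact setIntegral_le_integral (L1.integrable_coeFn x).abs
    (Eventually.of_forall fun _ => abs_nonneg _)

/-- Multiplication by an indicator function. -/
noncomputable def cut {s : Set ℝ} (hs : MeasurableSet s) : L1 →L[ℝ] L1 :=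
  LinearMap.mkContinuous
    { toFun := cutF hs
      map_add' := fun x y => by
        apply Lp.ext
        filter_upwards [coeFn_cutF hs x, coeFn_cutF hs y, coeFn_cutF hs (x + y),
          Lp.coeFn_add x y, Lp.coeFn_add (cutF hs x) (cutF hs y)] with t h1 h2 h3 h4 h5
        rw [h3, h5, Pi.add_apply, h1, h2]
        by_cases h : t ∈ s
        · rw [Set.indicator_of_mem h, Set.indicator_of_mem h, Set.indicator_of_mem h, h4]
          rfl
        · rw [Set.indicator_of_notMem h, Set.indicator_of_notMem h, Set.indicator_of_notMem h,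
            add_zero]
      map_smul' := fun c x => by
        apply Lp.ext
        filter_upwards [coeFn_cutF hs x, coeFn_cutF hs (c • x), Lp.coeFn_smul c x,
          Lp.coeFn_smul c (cutF hs x)] with t h1 h2 h3 h4
        rw [h2, RingHom.id_apply, h4, Pi.smul_apply, h1]
        by_cases h : t ∈ s
        · rw [Set.indicator_of_mem h, Set.indicator_of_mem h, h3]
          rfl
        · rw [Set.indicator_of_notMem h, Set.indicator_of_notMem h, smul_zero] } 1
    (fun x => by rw [one_mul]; exact norm_cutF_le hs x)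

lemma coeFn_cut {s : Set ℝ} (hs : MeasurableSet s) (x : L1) :
    cut hs x =ᵐ[lam] s.indicator x := coeFn_cutF hs x

lemma norm_cut {s : Set ℝ} (hs : MeasurableSet s) (x : L1) :
    ‖cut hs x‖ = ∫ t in s, |x t| ∂lam := norm_cutF hs x

lemma norm_cut_le {s : Set ℝ} (hs : MeasurableSet s) (x : L1) : ‖cut hs x‖ ≤ ‖x‖ :=
  norm_cutF_le hs x

/-! ### The cells -/

/-- The cells. -/
def I (N : ℕ) (k : Fin N) : Set ℝ := Set.Ico (((k : ℕ) : ℝ) / N) ((((k : ℕ) : ℝ) + 1) / N)

lemma measurable_I (N : ℕ) (k : Fin N) : MeasurableSet (I N k) := measurableSet_Ico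

lemma mem_I_iff {N : ℕ} (hN : 0 < N) (k : Fin N) (t : ℝ) :
    t ∈ I N k ↔ ((k : ℕ) : ℝ) ≤ t * N ∧ t * N < ((k : ℕ) : ℝ) + 1 := by
  have hN' : (0 : ℝ) < N := by exact_mod_cast hN
  rw [I, Set.mem_Ico, div_le_iff₀ hN', lt_div_iff₀ hN']

lemma disjoint_I {N : ℕ} (hN : 0 < N) {j k : Fin N} (h : j ≠ k) : Disjoint (I N j) (I N k) := by
  rw [Set.disjoint_left]
  intro t h1 h2
  rw [mem_I_iff hN] at h1 h2
  apply h
  apply Fin.ext
  have h3 : ((j : ℕ) : ℝ) < ((k : ℕ) : ℝ) + 1 := h1.1.trans_lt h2.2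
  have h4 : ((k : ℕ) : ℝ) < ((j : ℕ) : ℝ) + 1 := h2.1.trans_lt h1.2
  have h5 : (j : ℕ) < (k : ℕ) + 1 := by exact_mod_cast h3
  have h6 : (k : ℕ) < (j : ℕ) + 1 := by exact_mod_cast h4
  omega

lemma exists_mem_I {N : ℕ} (hN : 0 < N) {t : ℝ} (h0 : 0 ≤ t) (h1 : t < 1) : ∃ k, t ∈ I N k := by
  have hN' : (0 : ℝ) < N := by exact_mod_cast hN
  have h2 : ⌊t * N⌋₊ < N := by
    rw [Nat.floor_lt (by positivity)]
    nlinarith
  refine ⟨⟨⌊t * N⌋₊, h2⟩, ?_⟩
  rw [mem_I_iff hN]
  exact ⟨Nat.floor_le (by positivity), Nat.lt_floor_add_one _⟩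

lemma I_subset {N : ℕ} (hN : 0 < N) (k : Fin N) : I N k ⊆ Set.Icc 0 1 := by
  intro t ht
  rw [mem_I_iff hN] at ht
  have hN' : (0 : ℝ) < N := by exact_mod_cast hN
  have hk : ((k : ℕ) : ℝ) + 1 ≤ N := by exact_mod_cast k.2
  constructor
  · have : (0 : ℝ) ≤ ((k : ℕ) : ℝ) := by positivity
    by_contra hcon
    push Not at hcon
    nlinarith
  · by_contra hcon
    push Not at hcon
    nlinarith

lemma lam_I {N : ℕ} (hN : 0 < N) (k : Fin N) : lam (I N k) = ENNReal.ofReal (1 / N) := by
  rw [lam, Measure.restrict_apply (measurable_I N k),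
    Set.inter_eq_self_of_subset_left (I_subset hN k), I, Real.volume_Ico]
  congr 1
  ring

lemma sum_norm_cut {N : ℕ} (hN : 0 < N) (x : L1) :
    ∑ k, ‖cut (measurable_I N k) x‖ ≤ ‖x‖ := by
  simp only [norm_cut]
  rw [← integral_iUnion_fintype (fun k => measurable_I N k) (fun j k h => disjoint_I hN h)
    (fun k => (L1.integrable_coeFn x).abs.integrableOn), norm_eq]
  exact setIntegral_le_integral (L1.integrable_coeFn x).abs
    (Eventually.of_forall fun _ => abs_nonneg _)

lemma ae_mem : ∀ᵐ t ∂lam, 0 ≤ t ∧ t < 1 := by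
  have h1 : ∀ᵐ t ∂lam, t ∈ Set.Icc (0 : ℝ) 1 := ae_restrict_mem measurableSet_Icc
  have h2 : ∀ᵐ t ∂lam, t ≠ 1 := by
    have : lam {1} = 0 := by
      refine le_antisymm ((Measure.restrict_apply_le _ _).trans ?_) zero_le
      rw [Real.volume_singleton]
    exact compl_mem_ae_iff.2 this
  filter_upwards [h1, h2] with t h3 h4
  exact ⟨h3.1, lt_of_le_of_ne h3.2 h4⟩

lemma sum_cut {N : ℕ} (hN : 0 < N) (x : L1) : ∑ k, cut (measurable_I N k) x = x := by
  apply Lp.ext
  have h1 : (∑ k, cut (measurable_I N k) x : L1) =ᵐ[lam]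
      fun t => ∑ k, (I N k).indicator x t := by
    refine (Lp.coeFn_finsetSum _ _).trans ?_
    have h2 : ∀ᵐ t ∂lam, ∀ k : Fin N, cut (measurable_I N k) x t = (I N k).indicator x t :=
      ae_all_iff.2 fun k => coeFn_cut (measurable_I N k) x
    filter_upwards [h2] with t ht
    rw [Finset.sum_apply]
    exact Finset.sum_congr rfl fun k _ => ht k
  filter_upwards [h1, ae_mem] with t h2 h3
  rw [h2]
  obtain ⟨k, hk⟩ := exists_mem_I hN h3.1 h3.2
  rw [Finset.sum_eq_single k, Set.indicator_of_mem hk]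
  · intro j _ hj
    exact Set.indicator_of_notMem (Set.disjoint_left.1 (disjoint_I hN hj.symm) hk) _
  · intro h
    exact absurd (Finset.mem_univ _) h

/-- The functionals. -/
noncomputable def psi (N : ℕ) (k : Fin N) : StrongDual ℝ L1 :=
  (L1.integralCLM : L1 →L[ℝ] ℝ).comp (cut (measurable_I N k))

lemma psi_le (N : ℕ) (k : Fin N) (x : L1) : |psi N k x| ≤ ‖cut (measurable_I N k) x‖ := by
  have h1 : psi N k x = L1.integral (cut (measurable_I N k) x) :=
    (L1.integral_eq (cut (measurable_I N k) x)).symm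
  rw [h1, ← Real.norm_eq_abs]
  exact MeasureTheory.L1.norm_integral_le (E := ℝ) (μ := lam) (cut (measurable_I N k) x)

lemma lam_I_ne_top (N : ℕ) (k : Fin N) : lam (I N k) ≠ ∞ := measure_ne_top _ _

/-- The normalised indicators of the cells. -/
noncomputable def ev (N : ℕ) (k : Fin N) : L1 :=
  indicatorConstLp 1 (measurable_I N k) (lam_I_ne_top N k) (N : ℝ)

lemma coeFn_ev (N : ℕ) (k : Fin N) : ev N k =ᵐ[lam] (I N k).indicator fun _ => (N : ℝ) :=
  indicatorConstLp_coeFn

lemma integral_I {N : ℕ} (hN : 0 < N) (k : Fin N) (c : ℝ) :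
    ∫ t, (I N k).indicator (fun _ => c) t ∂lam = c / N := by
  rw [integral_indicator (measurable_I N k), setIntegral_const, Measure.real, lam_I hN,
    ENNReal.toReal_ofReal (by positivity), smul_eq_mul]
  ring

lemma norm_ev {N : ℕ} (hN : 0 < N) (k : Fin N) : ‖ev N k‖ ≤ 1 := by
  have hN' : (N : ℝ) ≠ 0 := by exact_mod_cast hN.ne'
  rw [norm_eq]
  refine le_of_eq ?_
  have h1 : ∫ t, |ev N k t| ∂lam = ∫ t, (I N k).indicator (fun _ => (N : ℝ)) t ∂lam := by
    refine integral_congr_ae ?_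
    filter_upwards [coeFn_ev N k] with t ht
    rw [ht]
    by_cases h : t ∈ I N k
    · rw [Set.indicator_of_mem h, abs_of_nonneg (by positivity)]
    · rw [Set.indicator_of_notMem h, abs_zero]
  rw [h1, integral_I hN, div_self hN']

lemma cut_ev_ne {N : ℕ} (hN : 0 < N) {j k : Fin N} (h : j ≠ k) :
    cut (measurable_I N j) (ev N k) = 0 := by
  apply Lp.ext
  filter_upwards [coeFn_cut (measurable_I N j) (ev N k), coeFn_ev N k,
    Lp.coeFn_zero ℝ 1 lam] with t h1 h2 h3
  rw [h1, h3, Pi.zero_apply]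
  by_cases ht : t ∈ I N j
  · rw [Set.indicator_of_mem ht, h2,
      Set.indicator_of_notMem (Set.disjoint_left.1 (disjoint_I hN h) ht)]
  · rw [Set.indicator_of_notMem ht]

lemma cut_ev_self {N : ℕ} (k : Fin N) : cut (measurable_I N k) (ev N k) = ev N k := by
  apply Lp.ext
  filter_upwards [coeFn_cut (measurable_I N k) (ev N k), coeFn_ev N k] with t h1 h2
  rw [h1]
  by_cases ht : t ∈ I N k
  · rw [Set.indicator_of_mem ht]
  · rw [Set.indicator_of_notMem ht, h2, Set.indicator_of_notMem ht]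

lemma psi_ev {N : ℕ} (hN : 0 < N) (k : Fin N) : psi N k (ev N k) = 1 := by
  have hN' : (N : ℝ) ≠ 0 := by exact_mod_cast hN.ne'
  have h1 : psi N k (ev N k) = L1.integral (ev N k) := by
    show L1.integralCLM (cut (measurable_I N k) (ev N k)) = _
    rw [cut_ev_self, L1.integral_eq]
  rw [h1, L1.integral_eq_integral, integral_congr_ae (coeFn_ev N k), integral_I hN, div_self hN']

lemma norm_R_le {N : ℕ} (hN : 0 < N) (x : L1) : ‖∑ k, psi N k x • ev N k‖ ≤ ‖x‖ := by
  refine (norm_sum_le _ _).trans (le_trans (Finset.sum_le_sum fun k _ => ?_) (sum_norm_cut hN x))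
  rw [norm_smul, Real.norm_eq_abs]
  calc |psi N k x| * ‖ev N k‖ ≤ ‖cut (measurable_I N k) x‖ * 1 :=
        mul_le_mul (psi_le N k x) (norm_ev hN k) (norm_nonneg _) (norm_nonneg _)
    _ = _ := mul_one _

lemma psi_ev_ne {N : ℕ} (hN : 0 < N) {j k : Fin N} (h : j ≠ k) : psi N j (ev N k) = 0 := by
  have h1 := psi_le N j (ev N k)
  rw [cut_ev_ne hN h, norm_zero] at h1
  exact abs_eq_zero.1 (le_antisymm h1 (abs_nonneg _))

lemma R_of_span {N : ℕ} (hN : 0 < N) (x : L1) (a : Fin N → ℝ) :
    ‖∑ k, psi N k x • ev N k - x‖ ≤ 2 * ‖x - ∑ k, a k • ev N k‖ := by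
  set s : L1 := ∑ k, a k • ev N k with hs
  have h1 : ∑ k, psi N k s • ev N k = s := by
    rw [hs]
    refine Finset.sum_congr rfl fun k _ => ?_
    congr 1
    rw [map_sum, Finset.sum_eq_single k]
    · rw [map_smul, psi_ev hN, smul_eq_mul, mul_one]
    · intro j _ hj
      rw [map_smul, psi_ev_ne hN hj.symm, smul_zero]
    · intro h
      exact absurd (Finset.mem_univ _) h
  have h2 : ∑ k, psi N k x • ev N k - x = ∑ k, psi N k (x - s) • ev N k - (x - s) := by
    simp only [map_sub, sub_smul, Finset.sum_sub_distrib]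
    rw [h1]
    abel
  rw [h2, two_mul]
  exact (norm_sub_le _ _).trans (add_le_add (norm_R_le hN _) le_rfl)

/-! ### Approximation -/

instance : IsProbabilityMeasure lam := ⟨by
  rw [Measure.restrict_apply MeasurableSet.univ, Set.univ_inter, Real.volume_Icc]
  simp⟩

lemma approx (x : L1) {η : ℝ} (hη : 0 < η) : ∀ᶠ N : ℕ in atTop, 0 < N ∧
    (∃ a : Fin N → ℝ, ‖x - ∑ k, a k • ev N k‖ ≤ η) ∧
      ∀ k, ‖cut (measurable_I N k) x‖ ≤ η := by
  have hdense := BoundedContinuousFunction.toLp_denseRange (𝕜 := ℝ) (p := 1) (E := ℝ) (μ := lam)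
    (by norm_num)
  obtain ⟨c, hc⟩ := Metric.denseRange_iff.1 hdense x (η / 2) (by positivity)
  rw [dist_eq_norm] at hc
  set y : L1 := BoundedContinuousFunction.toLp 1 lam ℝ c with hy
  have hyc : y =ᵐ[lam] c := BoundedContinuousFunction.coeFn_toLp 1 lam ℝ c
  have huc := isCompact_Icc.uniformContinuousOn_of_continuous (s := Set.Icc (0 : ℝ) 1)
    c.continuous.continuousOn
  rw [Metric.uniformContinuousOn_iff] at huc
  obtain ⟨δ, hδ, hδ2⟩ := huc (η / 2) (by positivity)
  obtain ⟨N₀, hN₀⟩ := exists_nat_gt (max (1 / δ) (2 * ‖c‖ / η))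
  filter_upwards [eventually_ge_atTop (max N₀ 1)] with N hN
  have hN0 : 0 < N := lt_of_lt_of_le one_pos ((le_max_right _ _).trans hN)
  have hN' : (0 : ℝ) < N := by exact_mod_cast hN0
  have hNN : (N₀ : ℝ) ≤ N := by exact_mod_cast (le_max_left _ _).trans hN
  have hNδ : 1 / (N : ℝ) < δ := by
    rw [div_lt_comm₀ hN' hδ]
    exact ((le_max_left _ _).trans_lt hN₀).trans_le hNN
  have hNc : ‖c‖ / N ≤ η / 2 := by
    have h1 : 2 * ‖c‖ / η < N := ((le_max_right _ _).trans_lt hN₀).trans_le hNN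
    rw [div_lt_iff₀ hη] at h1
    rw [div_le_iff₀ hN']
    linarith
  refine ⟨hN0, ⟨fun k => c (((k : ℕ) : ℝ) / N) * (1 / N), ?_⟩, fun k => ?_⟩
  · show ‖x - ∑ k : Fin N, (c (((k : ℕ) : ℝ) / N) * (1 / N)) • ev N k‖ ≤ η
    set s : L1 := ∑ k : Fin N, (c (((k : ℕ) : ℝ) / N) * (1 / N)) • ev N k with hs
    have hsc : s =ᵐ[lam] fun t => ∑ k : Fin N,
        (I N k).indicator (fun _ => c (((k : ℕ) : ℝ) / N)) t := by
      refine (Lp.coeFn_finsetSum _ _).trans ?_
      have h2 : ∀ᵐ t ∂lam, ∀ k : Fin N, ((c (((k : ℕ) : ℝ) / N) * (1 / N)) • ev N k : L1) t =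
          (I N k).indicator (fun _ => c (((k : ℕ) : ℝ) / N)) t := by
        refine ae_all_iff.2 fun k => ?_
        filter_upwards [Lp.coeFn_smul (c (((k : ℕ) : ℝ) / N) * (1 / N)) (ev N k),
          coeFn_ev N k] with t h3 h4
        rw [h3, Pi.smul_apply, h4]
        by_cases ht : t ∈ I N k
        · rw [Set.indicator_of_mem ht, Set.indicator_of_mem ht, smul_eq_mul]
          field_simp
        · rw [Set.indicator_of_notMem ht, Set.indicator_of_notMem ht, smul_zero]
      filter_upwards [h2] with t ht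
      rw [Finset.sum_apply]
      exact Finset.sum_congr rfl fun k _ => ht k
    have hys : ‖y - s‖ ≤ η / 2 := by
      rw [norm_eq]
      have h1 : ∀ᵐ t ∂lam, |(y - s : L1) t| ≤ η / 2 := by
        filter_upwards [Lp.coeFn_sub y s, hyc, hsc, ae_mem] with t h2 h3 h4 h5
        rw [h2, Pi.sub_apply, h3, h4]
        obtain ⟨k, hk⟩ := exists_mem_I hN0 h5.1 h5.2
        rw [Finset.sum_eq_single k]
        · rw [Set.indicator_of_mem hk]
          have hk2 := (mem_I_iff hN0 k t).1 hk
          have hkN : ((k : ℕ) : ℝ) / N ∈ Set.Icc (0 : ℝ) 1 := by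
            constructor
            · positivity
            · rw [div_le_one hN']
              exact_mod_cast k.2.le
          have h6 := hδ2 t ⟨h5.1, h5.2.le⟩ (((k : ℕ) : ℝ) / N) hkN (by
            rw [Real.dist_eq]
            refine lt_of_le_of_lt ?_ hNδ
            rw [abs_of_nonneg (by rw [sub_nonneg, div_le_iff₀ hN']; exact hk2.1), sub_le_iff_le_add,
              ← add_div, le_div_iff₀ hN']
            linarith [hk2.2])
          rw [Real.dist_eq] at h6
          exact h6.le
        · intro j _ hj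
          exact Set.indicator_of_notMem (Set.disjoint_left.1 (disjoint_I hN0 hj.symm) hk) _
        · intro h
          exact absurd (Finset.mem_univ _) h
      calc ∫ t, |(y - s : L1) t| ∂lam ≤ ∫ _t, η / 2 ∂lam :=
            integral_mono_ae (L1.integrable_coeFn _).abs (integrable_const _) h1
        _ = η / 2 := by simp
    calc ‖x - s‖ = ‖(x - y) + (y - s)‖ := by congr 1; abel
      _ ≤ ‖x - y‖ + ‖y - s‖ := norm_add_le _ _
      _ ≤ η / 2 + η / 2 := add_le_add hc.le hys
      _ = η := by ring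
  · have h1 : ‖cut (measurable_I N k) y‖ ≤ ‖c‖ / N := by
      rw [norm_cut, ← integral_indicator (measurable_I N k), ← integral_I hN0 k ‖c‖]
      refine integral_mono_ae ((L1.integrable_coeFn _).abs.indicator (measurable_I N k))
        ((integrable_const _).indicator (measurable_I N k)) ?_
      filter_upwards [hyc] with t ht
      by_cases h : t ∈ I N k
      · rw [Set.indicator_of_mem h, Set.indicator_of_mem h, ht]
        exact c.norm_coe_le_norm t
      · rw [Set.indicator_of_notMem h, Set.indicator_of_notMem h]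
    have h2 : cut (measurable_I N k) x = cut (measurable_I N k) (x - y) +
        cut (measurable_I N k) y := by
      rw [← map_add]
      congr 1
      abel
    rw [h2]
    refine (norm_add_le _ _).trans ?_
    have h3 := norm_cut_le (measurable_I N k) (x - y)
    linarith

lemma hasCells : HasCells L1 := by
  intro X η hη
  have h1 : ∀ᶠ N : ℕ in atTop, ∀ x ∈ X, 0 < N ∧
      (∃ a : Fin N → ℝ, ‖x - ∑ k, a k • ev N k‖ ≤ η / 2) ∧
        ∀ k, ‖cut (measurable_I N k) x‖ ≤ η / 2 :=
    (Finset.eventually_all X).2 fun x _ => approx x (by positivity)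
  obtain ⟨N, hN1, hN2⟩ := (h1.and (eventually_ge_atTop 2)).exists
  have hN : 0 < N := by omega
  refine ⟨N, fun k => cut (measurable_I N k), ev N, psi N, hN2, sum_cut hN, sum_norm_cut hN,
    psi_le N, psi_ev hN, fun j k h => cut_ev_ne hN h, norm_ev hN, fun x hx => ?_,
    fun x hx k => ?_⟩
  · obtain ⟨-, ⟨a, ha⟩, -⟩ := hN1 x hx
    exact (R_of_span hN x a).trans (by linarith)
  · obtain ⟨-, -, h2⟩ := hN1 x hx
    exact (h2 k).trans (by linarith)

/-- The free Banach lattice generated by `L₁[0,1]` has the Daugavet property; in particular there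
is a Banach space `E` such that the free Banach lattice generated by `E` has the Daugavet
property. -/
theorem result : Daugavet (FBL L1) ∧
    ∃ (E : Type) (_ : NormedAddCommGroup E) (_ : NormedSpace ℝ E) (_ : CompleteSpace E),
      Daugavet (FBL E) :=
  ⟨daugavet hasCells, L1, inferInstance, inferInstance, inferInstance, daugavet hasCells⟩

end Pool.Agent.Results.MP_207313_an.FreeLatticeDaugavet
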